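import Pool.Agent.N659.HB.Stm3

/-!
Project KS (helper659), part ASYK (helper170): choice of the numbers at weak disorder.
-/

set_option autoImplicit false

namespace Pool.Agent.N170.KS

open Filter Pool.Agent.N659.HB
open scoped Topology

/-- the constant in the lower bound of `cG` -/
noncomputable def c3 (γ C₁ c s₂ D₀ : ℝ) : ℝ :=
  (γ * C₁ ^ 2 * s₂ * c / 360) ^ 3 * γ ^ 2 / (16 * (D₀ + 4) ^ 4)

lemma le_of_sq {a b : ℝ} (hb : 0 ≤ b) (h : a ^ 2 ≤ b ^ 2) : a ≤ b := by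
  by_contra hc
  rw [not_le] at hc
  have : b ^ 2 < a ^ 2 := pow_lt_pow_left₀ hc hb two_ne_zero
  linarith

theorem core {γ C₁ C c s₂ D₀ lam L J l κ : ℝ} {n : ℕ} (hγ : 0 < γ) (hC₁ : 0 < C₁) (hC : 0 < C)
    (hc : 0 < c) (hs : 0 < s₂) (hs1 : s₂ ≤ 1) (hD : 0 ≤ D₀) (hL : 64 ≤ L) (hJ1 : L ≤ J)
    (hJ2 : J ≤ 2 * L) (hlam0 : 0 < lam) (hlam1 : lam ≤ 1) (hexp : Real.exp (-L) = lam)
    (hl : l = lam ^ 2 * L ^ 4 / 2) (hn1 : L ≤ n) (hn2 : (n : ℝ) ≤ 2 * L)
    (hκ : κ = Real.sqrt (2 * C₁ * lam * C * J * (4 * (γ * C₁ * lam) / (γ * l))))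
    (k1 : 131072 * (C₁ ^ 2 * C) ≤ L)
    (k2 : 32 * (C₁ ^ 2 * C) * (144000 * C / (s₂ * c)) ^ 2 ≤ L)
    (k3 : 34560 * C₁ ^ 2 * C ^ 2 / c ≤ L) (k4 : c / (2 * C) ≤ L)
    (k5 : 2048 * (C₁ ^ 2 * C) * Real.exp 20 ≤ L)
    (d1 : lam * L ^ 5 ≤ 2 / C) (d2 : lam * L ^ 5 ≤ 64 * C₁ ^ 4 * C ^ 3)
    (d3 : lam * L ^ 5 ≤ 1 / γ) (d4 : lam * L ^ 5 ≤ c3 γ C₁ c s₂ D₀ / (2 * (γ * C₁)))
    (d5 : lam * L ^ 5 ≤ 1) :
    l ≤ 1 / 2 ∧ NG n (γ * C₁ * lam) (γ * l) (2 * C₁ * lam * C * J) κ s₂ (C₁ * lam * c)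
      ((C₁ * lam) ^ 2 * (C / l)) D₀ := by
  have hL0 : 0 < L := by linarith
  have hL1 : 1 ≤ L := by linarith
  have hJ0 : 0 < J := by linarith
  have hl0 : 0 < l := by rw [hl]; positivity
  set A : ℝ := C₁ ^ 2 * C with hA
  have hA0 : 0 < A := by positivity
  have hn0 : 0 < (n : ℝ) := by linarith
  have hn : 1 ≤ n := by
    have : (1 : ℝ) ≤ n := by linarith
    exact_mod_cast this
  -- powers
  have p23 : L ≤ L ^ 3 := by
    calc L = L ^ 1 := (pow_one L).symm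
      _ ≤ L ^ 3 := pow_le_pow_right₀ hL1 (by norm_num)
  have p45 : lam * L ^ 4 ≤ lam * L ^ 5 := by
    have : L ^ 4 ≤ L ^ 5 := pow_le_pow_right₀ hL1 (by norm_num)
    gcongr
  have p15 : lam * L ≤ lam * L ^ 5 := by
    have : L ^ 1 ≤ L ^ 5 := pow_le_pow_right₀ hL1 (by norm_num)
    rw [pow_one] at this
    gcongr
  have p05 : lam ≤ lam * L ^ 5 := by
    have : (1 : ℝ) ≤ L ^ 5 := one_le_pow₀ hL1
    calc lam = lam * 1 := (mul_one _).symm
      _ ≤ lam * L ^ 5 := by gcongr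
  have q2 : lam ^ 2 * L ^ 4 ≤ lam * L ^ 5 := by
    calc lam ^ 2 * L ^ 4 = lam * (lam * L ^ 4) := by ring
      _ ≤ 1 * (lam * L ^ 4) := by gcongr
      _ ≤ _ := by rw [one_mul]; exact p45
  have q25 : lam ^ 2 * L ^ 5 ≤ lam * L ^ 5 := by
    calc lam ^ 2 * L ^ 5 = lam * (lam * L ^ 5) := by ring
      _ ≤ 1 * (lam * L ^ 5) := by gcongr
      _ = _ := one_mul _
  -- the square of kappa
  have hval : 2 * C₁ * lam * C * J * (4 * (γ * C₁ * lam) / (γ * l)) = 16 * A * J / L ^ 4 := by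
    rw [hl, hA]
    field_simp
    ring
  have hκ0 : 0 < κ := by
    rw [hκ, hval]
    exact Real.sqrt_pos.2 (by positivity)
  have hκ2 : κ ^ 2 = 16 * A * J / L ^ 4 := by
    rw [hκ, hval, Real.sq_sqrt (by positivity)]
  have hκu : κ ^ 2 ≤ 32 * A / L ^ 3 := by
    rw [hκ2, div_le_div_iff₀ (by positivity) (by positivity)]
    calc 16 * A * J * L ^ 3 ≤ 16 * A * (2 * L) * L ^ 3 := by gcongr
      _ = 32 * A * L ^ 4 := by ring
  have hκl : 16 * A / L ^ 3 ≤ κ ^ 2 := by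
    rw [hκ2, div_le_div_iff₀ (by positivity) (by positivity)]
    calc 16 * A * L ^ 4 = 16 * A * L * L ^ 3 := by ring
      _ ≤ 16 * A * J * L ^ 3 := by gcongr
  have hκL : (L * κ) ^ 2 ≤ 32 * A / L := by
    rw [mul_pow]
    calc L ^ 2 * κ ^ 2 ≤ L ^ 2 * (32 * A / L ^ 3) := by gcongr
      _ = 32 * A / L := by field_simp
  have a64 : 64 * κ ≤ 1 := by
    have h1 : (64 * κ) ^ 2 ≤ 1 ^ 2 := by
      rw [mul_pow, one_pow]
      have h2 : 32 * A / L ^ 3 ≤ 1 / 4096 := by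
        rw [div_le_div_iff₀ (by positivity) (by norm_num)]
        linarith
      linarith
    exact le_of_sq zero_le_one h1
  have a32 : 32 * (L * κ) ≤ 1 := by
    have h1 : (32 * (L * κ)) ^ 2 ≤ 1 ^ 2 := by
      rw [mul_pow, one_pow]
      have h2 : 32 * A / L ≤ 1 / 1024 := by
        rw [div_le_div_iff₀ (by positivity) (by norm_num)]
        linarith
      linarith
    exact le_of_sq zero_le_one h1
  have nκ : n * κ ≤ 2 * (L * κ) := by
    calc n * κ ≤ 2 * L * κ := by gcongr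
      _ = _ := by ring
  have b_le : 2 * C₁ * lam * C * J ≤ 4 * C₁ * lam * C * L := by
    calc 2 * C₁ * lam * C * J ≤ 2 * C₁ * lam * C * (2 * L) := by gcongr
      _ = _ := by ring
  have e2 : 48 * (γ * C₁ * lam) * (2 * C₁ * lam * C * J) ≤ γ * l := by
    rw [hl]
    have h1 : 384 * A ≤ L ^ 3 := by linarith
    calc 48 * (γ * C₁ * lam) * (2 * C₁ * lam * C * J)
        ≤ 48 * (γ * C₁ * lam) * (4 * C₁ * lam * C * L) := by gcongr
      _ = (384 * A) * (γ * lam ^ 2 * L / 2) := by rw [hA]; ring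
      _ ≤ L ^ 3 * (γ * lam ^ 2 * L / 2) := by gcongr
      _ = γ * (lam ^ 2 * L ^ 4 / 2) := by ring
  have hr1 : γ * l ≤ 1 := by
    have h1 : lam ^ 2 * L ^ 4 ≤ 1 / γ := q2.trans d3
    rw [le_div_iff₀ hγ] at h1
    rw [hl]
    nlinarith
  refine ⟨by rw [hl]; linarith, hn, by positivity, by positivity, by positivity, hκ0, hs, hs1,
    by positivity, by positivity, hD, ?_, ?_, e2, ?_, a64, ?_, ?_, ?_, ?_, ?_⟩
  · rw [hκ, Real.sq_sqrt (by positivity)]
  · rw [hval, hl]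
    have h1 : 4 * ((C₁ * lam) ^ 2 * (C / (lam ^ 2 * L ^ 4 / 2))) = 8 * A / L ^ 4 := by
      rw [hA]
      field_simp
      ring
    rw [h1]
    have h2 : 8 * A ≤ 16 * A * J := by nlinarith
    exact div_le_div_of_nonneg_right h2 (by positivity)
  · have h1 : 4 * (γ * C₁ * lam) / (γ * l) = 8 * C₁ / (lam * L ^ 4) := by
      rw [hl]
      field_simp
      ring
    rw [h1, le_div_iff₀ (by positivity)]
    have h2 : lam ^ 2 * L ^ 5 ≤ 2 / C := q25.trans d1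
    rw [le_div_iff₀ hC] at h2
    calc 2 * C₁ * lam * C * J * (lam * L ^ 4) ≤ 4 * C₁ * lam * C * L * (lam * L ^ 4) := by gcongr
      _ = 4 * C₁ * (lam ^ 2 * L ^ 5 * C) := by ring
      _ ≤ 4 * C₁ * 2 := by gcongr
      _ = 8 * C₁ := by ring
  · have : 16 * (n : ℝ) * κ = 16 * (n * κ) := by ring
    rw [this]
    linarith
  · -- e5
    have h1 : L * κ ≤ s₂ * c / (144000 * C) := by
      refine le_of_sq (by positivity) (hκL.trans ?_)
      have h3 : (s₂ * c / (144000 * C)) ^ 2 = 1 / (144000 * C / (s₂ * c)) ^ 2 := by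
        field_simp
      rw [h3, div_le_div_iff₀ hL0 (by positivity)]
      linarith
    rw [le_div_iff₀ (by positivity)] at h1
    calc 50 * (2 * C₁ * lam * C * J) * κ ≤ 50 * (4 * C₁ * lam * C * L) * κ := by gcongr
      _ = C₁ * lam / 720 * (L * κ * (144000 * C)) := by ring
      _ ≤ C₁ * lam / 720 * (s₂ * c) := by gcongr
      _ = s₂ * (C₁ * lam * c) / 720 := by ring
  · -- e6
    rw [div_le_iff₀ hc] at k3
    have h2 : 34560 * C₁ ^ 2 * C ^ 2 ≤ L ^ 3 * c := k3.trans (by gcongr)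
    calc 6 * (2 * C₁ * lam * C * J) * ((C₁ * lam) ^ 2 * (C / l))
        ≤ 6 * (4 * C₁ * lam * C * L) * ((C₁ * lam) ^ 2 * (C / l)) := by gcongr
      _ = (34560 * C₁ ^ 2 * C ^ 2) * (C₁ * lam / (720 * L ^ 3)) := by
        rw [hl]
        field_simp
        ring
      _ ≤ (L ^ 3 * c) * (C₁ * lam / (720 * L ^ 3)) := by gcongr
      _ = C₁ * lam * c / 720 := by field_simp
  · -- e7
    rw [div_le_iff₀ (by positivity)] at k4
    calc C₁ * lam * c ≤ C₁ * lam * (L * (2 * C)) := by gcongr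
      _ ≤ C₁ * lam * (J * (2 * C)) := by gcongr
      _ = _ := by ring
  · -- e8
    have hc3 : 0 < c3 γ C₁ c s₂ D₀ := by unfold c3; positivity
    have hcG : c3 γ C₁ c s₂ D₀ * lam ^ 10 ≤ cG (γ * C₁ * lam) (γ * l) (2 * C₁ * lam * C * J) s₂
        (C₁ * lam * c) D₀ := by
      unfold cG etaG c3
      set Dv := D₀ + 1 + 3 * (γ * C₁ * lam) * (2 * C₁ * lam * C * J) + 2 * (γ * l) with hDv
      have hDv0 : 0 < Dv := by rw [hDv]; positivity
      have hDv4 : Dv ≤ D₀ + 4 := by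
        rw [hDv]
        linarith
      have h1 : (γ * C₁ ^ 2 * s₂ * c / 360) ^ 3 * γ ^ 2 / (16 * (D₀ + 4) ^ 4) * lam ^ 10 =
          ((γ * C₁ * lam) * s₂ * (C₁ * lam * c) / 360) ^ 3 * (γ * (lam ^ 2 / 2)) ^ 2 /
            (4 * (D₀ + 4) ^ 4) := by
        field_simp
        ring
      rw [h1]
      have h2 : lam ^ 2 / 2 ≤ l := by
        rw [hl]
        have : (1 : ℝ) ≤ L ^ 4 := one_le_pow₀ hL1
        have : lam ^ 2 * 1 ≤ lam ^ 2 * L ^ 4 := by gcongr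
        linarith
      gcongr
    have hcG0 : 0 < cG (γ * C₁ * lam) (γ * l) (2 * C₁ * lam * C * J) s₂ (C₁ * lam * c) D₀ :=
      lt_of_lt_of_le (by positivity) hcG
    have h1 : γ * C₁ * lam / cG (γ * C₁ * lam) (γ * l) (2 * C₁ * lam * C * J) s₂
        (C₁ * lam * c) D₀ ≤ γ * C₁ * lam / (c3 γ C₁ c s₂ D₀ * lam ^ 10) := by gcongr
    have h2 : ((4 * n * κ) ^ n) ^ 2 ≤ lam ^ 20 := by
      have g1 : (4 * n * κ) ^ 2 ≤ Real.exp (-20) := by
        have g2 : 4 * n * κ ≤ 8 * (L * κ) := by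
          have : 4 * (n : ℝ) * κ = 4 * (n * κ) := by ring
          rw [this]
          linarith
        calc (4 * n * κ) ^ 2 ≤ (8 * (L * κ)) ^ 2 := by gcongr
          _ = 64 * (L * κ) ^ 2 := by ring
          _ ≤ 64 * (32 * A / L) := by gcongr
          _ = 2048 * A / L := by ring
          _ ≤ Real.exp (-20) := by
            rw [div_le_iff₀ hL0, Real.exp_neg, inv_mul_eq_div, le_div_iff₀ (Real.exp_pos _)]
            exact k5
      calc ((4 * n * κ) ^ n) ^ 2 = ((4 * n * κ) ^ 2) ^ n := by rw [← pow_mul, ← pow_mul, mul_comm n 2]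
        _ ≤ Real.exp (-20) ^ n := by gcongr
        _ = Real.exp (-20 * n) := by rw [← Real.exp_nat_mul]; congr 1; ring
        _ ≤ Real.exp (20 * (-L)) := Real.exp_le_exp.2 (by linarith)
        _ = lam ^ 20 := by
          rw [← hexp, ← Real.exp_nat_mul]
          congr 1
    have h3 : lam ^ 2 ≤ 2 * C₁ * lam * C * J * κ := by
      refine le_of_sq (by positivity) ?_
      have g1 : (lam ^ 2) ^ 2 ≤ (2 * C₁ * lam * C * L) ^ 2 * (16 * A / L ^ 3) := by
        have g2 : lam ^ 2 * L ≤ 64 * C₁ ^ 4 * C ^ 3 := by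
          calc lam ^ 2 * L = lam * (lam * L) := by ring
            _ ≤ 1 * (lam * L) := by gcongr
            _ ≤ lam * L ^ 5 := by rw [one_mul]; exact p15
            _ ≤ _ := d2
        have g3 : (2 * C₁ * lam * C * L) ^ 2 * (16 * A / L ^ 3) =
            lam ^ 2 * (64 * C₁ ^ 4 * C ^ 3) / L := by
          rw [hA]
          field_simp
          ring
        rw [g3, le_div_iff₀ hL0]
        calc (lam ^ 2) ^ 2 * L = lam ^ 2 * (lam ^ 2 * L) := by ring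
          _ ≤ lam ^ 2 * (64 * C₁ ^ 4 * C ^ 3) := by gcongr
      calc (lam ^ 2) ^ 2 ≤ (2 * C₁ * lam * C * L) ^ 2 * (16 * A / L ^ 3) := g1
        _ ≤ (2 * C₁ * lam * C * J) ^ 2 * κ ^ 2 := by gcongr
        _ = _ := by ring
    have h4 : lam ^ 9 ≤ c3 γ C₁ c s₂ D₀ / (2 * (γ * C₁)) := by
      refine le_trans ?_ (p05.trans d4)
      calc lam ^ 9 = lam ^ 8 * lam := by ring
        _ ≤ 1 * lam := by
          gcongr
          exact pow_le_one₀ hlam0.le hlam1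
        _ = lam := one_mul _
    rw [le_div_iff₀ (by positivity)] at h4
    calc _ ≤ γ * C₁ * lam / (c3 γ C₁ c s₂ D₀ * lam ^ 10) * (2 * lam ^ 20) := by gcongr
      _ = lam ^ 9 * (2 * (γ * C₁)) / c3 γ C₁ c s₂ D₀ * lam ^ 2 := by field_simp
      _ ≤ c3 γ C₁ c s₂ D₀ / c3 γ C₁ c s₂ D₀ * lam ^ 2 := by gcongr
      _ = lam ^ 2 := by rw [div_self hc3.ne', one_mul]
      _ ≤ _ := h3

/-- small `lam` -/
theorem ev (K δ : ℝ) (hδ : 0 < δ) : ∃ lam₀ : ℝ, 0 < lam₀ ∧ lam₀ < 1 ∧ ∀ lam : ℝ, 0 < lam →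
    lam ≤ lam₀ → K ≤ Real.log (1 / lam) ∧ lam * Real.log (1 / lam) ^ 5 ≤ δ := by
  have h0 : Tendsto (fun lam : ℝ => Real.log (1 / lam)) (𝓝[>] 0) atTop := by
    have := Real.tendsto_log_atTop.comp tendsto_inv_nhdsGT_zero
    simpa [Function.comp_def, one_div] using this
  have h1 : Tendsto (fun lam : ℝ => Real.log (1 / lam) ^ 5 * Real.exp (-Real.log (1 / lam)))
      (𝓝[>] 0) (𝓝 0) := (Real.tendsto_pow_mul_exp_neg_atTop_nhds_zero 5).comp h0
  have h2 := (h0.eventually (eventually_ge_atTop K)).and (h1.eventually (ge_mem_nhds hδ))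
  obtain ⟨u, hu, hu2⟩ := mem_nhdsGT_iff_exists_Ioc_subset.1 h2
  refine ⟨min u (1 / 2), lt_min hu (by norm_num), lt_of_le_of_lt (min_le_right _ _) (by norm_num),
    fun lam hlam hle => ?_⟩
  obtain ⟨g1, g2⟩ := hu2 ⟨hlam, hle.trans (min_le_left _ _)⟩
  refine ⟨g1, ?_⟩
  have e : Real.exp (-Real.log (1 / lam)) = lam := by
    rw [one_div, Real.log_inv, neg_neg, Real.exp_log hlam]
  rw [e] at g2
  linarith [mul_comm lam (Real.log (1 / lam) ^ 5)]

theorem main : S_ASYK := by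
  intro γ C₁ C c s₂ D₀ hγ hC₁ hC hc hs hs1 hD
  have hc3 : 0 < c3 γ C₁ c s₂ D₀ := by unfold c3; positivity
  set K : ℝ := 64 + 131072 * (C₁ ^ 2 * C) + 32 * (C₁ ^ 2 * C) * (144000 * C / (s₂ * c)) ^ 2 +
    34560 * C₁ ^ 2 * C ^ 2 / c + c / (2 * C) + 2048 * (C₁ ^ 2 * C) * Real.exp 20 with hK
  have t1 : 0 < 131072 * (C₁ ^ 2 * C) := by positivity
  have t2 : 0 < 32 * (C₁ ^ 2 * C) * (144000 * C / (s₂ * c)) ^ 2 := by positivity
  have t3 : 0 < 34560 * C₁ ^ 2 * C ^ 2 / c := by positivity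
  have t4 : 0 < c / (2 * C) := by positivity
  have t5 : 0 < 2048 * (C₁ ^ 2 * C) * Real.exp 20 := by positivity
  set δ : ℝ := min (min (2 / C) (64 * C₁ ^ 4 * C ^ 3)) (min (min (1 / γ)
    (c3 γ C₁ c s₂ D₀ / (2 * (γ * C₁)))) 1) with hδ
  have hδ0 : 0 < δ := by
    refine lt_min (lt_min (by positivity) (by positivity)) (lt_min (lt_min (by positivity)
      (by positivity)) one_pos)
  obtain ⟨lam₀, h0, h1, h2⟩ := ev K δ hδ0
  refine ⟨lam₀, h0, h1, fun lam hlam hle => ⟨⌈Real.log (1 / lam)⌉₊, ?_⟩⟩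
  obtain ⟨g1, g2⟩ := h2 lam hlam hle
  set L := Real.log (1 / lam) with hL
  have hLK : K ≤ L := g1
  have hL64 : 64 ≤ L := by linarith
  have hL0 : 0 < L := by linarith
  have hJ : Real.log (1 / (lam ^ 2 * L ^ 4 / 2)) = 2 * L - 4 * Real.log L + Real.log 2 := by
    rw [one_div, Real.log_inv, Real.log_div (by positivity) (by norm_num),
      Real.log_mul (by positivity) (by positivity), Real.log_pow, Real.log_pow, hL, one_div,
      Real.log_inv]
    push_cast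
    ring
  have hlog : 4 * Real.log L ≤ L := by
    have s1 : Real.log L = 2 * Real.log (Real.sqrt L) := by
      rw [Real.log_sqrt hL0.le]
      ring
    have s2 : Real.log (Real.sqrt L) ≤ Real.sqrt L - 1 :=
      Real.log_le_sub_one_of_pos (Real.sqrt_pos.2 hL0)
    have s3 : 8 ≤ Real.sqrt L := by
      rw [show (8 : ℝ) = Real.sqrt (8 ^ 2) by rw [Real.sqrt_sq (by norm_num)]]
      exact Real.sqrt_le_sqrt (by norm_num; linarith)
    have s4 : Real.sqrt L * Real.sqrt L = L := Real.mul_self_sqrt hL0.le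
    nlinarith
  have hlog2 : 0 ≤ Real.log 2 := Real.log_nonneg (by norm_num)
  have hlog3 : Real.log 2 ≤ 4 * Real.log L := by
    have : Real.log 2 ≤ Real.log L := Real.log_le_log (by norm_num) (by linarith)
    linarith
  have hexp : Real.exp (-L) = lam := by
    rw [hL, one_div, Real.log_inv, neg_neg, Real.exp_log hlam]
  have m1 : δ ≤ 2 / C := (min_le_left _ _).trans (min_le_left _ _)
  have m2 : δ ≤ 64 * C₁ ^ 4 * C ^ 3 := (min_le_left _ _).trans (min_le_right _ _)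
  have m3 : δ ≤ 1 / γ := (min_le_right _ _).trans ((min_le_left _ _).trans (min_le_left _ _))
  have m4 : δ ≤ c3 γ C₁ c s₂ D₀ / (2 * (γ * C₁)) :=
    (min_le_right _ _).trans ((min_le_left _ _).trans (min_le_right _ _))
  have m5 : δ ≤ 1 := (min_le_right _ _).trans (min_le_right _ _)
  exact core hγ hC₁ hC hc hs hs1 hD hL64 (by rw [hJ]; linarith) (by rw [hJ]; linarith) hlam
    (hle.trans h1.le) hexp rfl (Nat.le_ceil _) (by
      have := (Nat.ceil_lt_add_one hL0.le).le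
      linarith) rfl (by linarith) (by linarith) (by linarith) (by linarith) (by linarith)
    (g2.trans m1) (g2.trans m2) (g2.trans m3) (g2.trans m4) (g2.trans m5)

end Pool.Agent.N170.KS
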